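import Mathlib

set_option autoImplicit false
set_option linter.unusedSectionVars false

/-! Linear orders all of whose colourings with few colours admit a colour-preserving
order automorphism. -/

namespace Pool.Agent.H125.UM

variable {Θ : Type} [LinearOrder Θ] [WellFoundedLT Θ]

/-- Agreement below `α`. -/
def Ag (α : Θ) (x y : Θ → ℤ) : Prop := ∀ β < α, x β = y β

lemma Ag.refl (α : Θ) (x : Θ → ℤ) : Ag α x x := fun _ _ => rfl
lemma Ag.symm {α : Θ} {x y : Θ → ℤ} (h : Ag α x y) : Ag α y x := fun β hβ => (h β hβ).symm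
lemma Ag.trans {α : Θ} {x y z : Θ → ℤ} (h : Ag α x y) (h' : Ag α y z) : Ag α x z :=
  fun β hβ => (h β hβ).trans (h' β hβ)
lemma Ag.mono {α β : Θ} {x y : Θ → ℤ} (h : Ag α x y) (hβ : β ≤ α) : Ag β x y :=
  fun γ hγ => h γ (hγ.trans_le hβ)

/-- Bounded support. -/
def Bd (x : Θ → ℤ) : Prop := ∃ β, ∀ γ, β ≤ γ → x γ = 0

/-- The order. -/
abbrev XX (Θ : Type) [LinearOrder Θ] := {x : Lex (Θ → ℤ) // ∃ β, ∀ γ, β ≤ γ → x γ = 0}

/-- length of the support -/
noncomputable def ell (x : XX Θ) : Θ := wellFounded_lt.min {β | ∀ γ, β ≤ γ → x.1 γ = 0} x.2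

lemma ell_spec (x : XX Θ) (γ : Θ) (h : ell x ≤ γ) : x.1 γ = 0 :=
  wellFounded_lt.min_mem {β | ∀ γ, β ≤ γ → x.1 γ = 0} x.2 γ h

/-- recursion on the index -/
lemma rec_exists (R : Θ → (Θ → ℤ) → ℤ) (hR : ∀ α s t, Ag α s t → R α s = R α t) :
    ∃ s : Θ → ℤ, ∀ α, s α = R α s := by
  classical
  let s : Θ → ℤ := (wellFounded_lt (α := Θ)).fix fun α ih =>
    R α (fun β => if h : β < α then ih β h else 0)
  refine ⟨s, fun α => ?_⟩
  have h1 : s α = R α (fun β => if h : β < α then s β else 0) :=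
    (wellFounded_lt (α := Θ)).fix_eq _ α
  rw [h1]
  refine hR α _ _ fun β hβ => ?_
  simp [hβ]

section colour

variable {C : Type} (χ : XX Θ → C)

/-- colours present in a cone -/
def PC (n : Θ × (Θ → ℤ)) : Set C := {c | ∃ x : XX Θ, Ag n.1 x.1 n.2 ∧ χ x = c}

/-- extension of nodes -/
def Ex (n m : Θ × (Θ → ℤ)) : Prop := n.1 ≤ m.1 ∧ Ag n.1 m.2 n.2

lemma Ex.trans {n m p : Θ × (Θ → ℤ)} (h : Ex n m) (h' : Ex m p) : Ex n p :=
  ⟨h.1.trans h'.1, (h'.2.mono h.1).trans h.2⟩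

lemma PC_mono {n m : Θ × (Θ → ℤ)} (h : Ex n m) : PC χ m ⊆ PC χ n := by
  rintro c ⟨x, hx, hc⟩
  exact ⟨x, (hx.mono h.1).trans h.2, hc⟩

theorem exists_homog [Nonempty Θ] (hbd : ∀ f : C → Θ, ∃ b, ∀ i, f i ≤ b) :
    ∃ n : Θ × (Θ → ℤ), ∀ m, Ex n m → PC χ m = PC χ n := by
  classical
  let r : Θ × (Θ → ℤ) → Θ × (Θ → ℤ) → Prop := fun n m => n = m ∨ (Ex n m ∧ PC χ m ⊂ PC χ n)
  have htr : ∀ {a b c}, r a b → r b c → r a c := by
    rintro a b c (rfl | h1) (rfl | h2)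
    · exact Or.inl rfl
    · exact Or.inr h2
    · exact Or.inr h1
    · exact Or.inr ⟨h1.1.trans h2.1, h2.2.trans h1.2⟩
  obtain ⟨n, hn⟩ := exists_maximal_of_chains_bounded (r := r) (by
    intro c hc
    by_cases hmax : ∃ m ∈ c, ∀ a ∈ c, r a m
    · obtain ⟨m, -, hm⟩ := hmax
      exact ⟨m, hm⟩
    push Not at hmax
    have hsucc : ∀ a ∈ c, ∃ b ∈ c, Ex a b ∧ PC χ b ⊂ PC χ a := by
      intro a ha
      obtain ⟨b, hb, hab⟩ := hmax a ha
      have hne : b ≠ a := fun h => hab (Or.inl h)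
      rcases hc hb ha hne with h | h
      · exact absurd h hab
      · rcases h with h | h
        · exact absurd h.symm hne
        · exact ⟨b, hb, h⟩
    -- bound the levels
    let f : C → Θ := fun i => if h : ∃ a ∈ c, i ∉ PC χ a then h.choose.1 else Classical.arbitrary Θ
    obtain ⟨A, hA⟩ := hbd f
    have hlev : ∀ a ∈ c, a.1 ≤ A := by
      intro a ha
      obtain ⟨b, hb, hab, hP⟩ := hsucc a ha
      obtain ⟨i, hi, hi'⟩ := Set.exists_of_ssubset hP
      have hex : ∃ a ∈ c, i ∉ PC χ a := ⟨b, hb, hi'⟩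
      have h1 := hex.choose_spec
      have h2 : f i = hex.choose.1 := dif_pos hex
      have h3 := hA i
      rw [h2] at h3
      refine le_trans ?_ h3
      have hne : a ≠ hex.choose := by
        intro h
        rw [← h] at h1
        exact h1.2 hi
      rcases hc ha h1.1 hne with h | h
      · rcases h with h | h
        · exact absurd h hne
        · exact h.1.1
      · rcases h with h | h
        · exact absurd h.symm hne
        · exact absurd (h.2.subset hi) h1.2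
    -- the union
    have hagree : ∀ a ∈ c, ∀ b ∈ c, ∀ γ, γ < a.1 → γ < b.1 → a.2 γ = b.2 γ := by
      intro a ha b hb γ hγa hγb
      by_cases hab : a = b
      · rw [hab]
      rcases hc ha hb hab with h | h
      · rcases h with h | h
        · rw [h]
        · exact (h.1.2 γ hγa).symm
      · rcases h with h | h
        · rw [h]
        · exact h.1.2 γ hγb
    let g : Θ → ℤ := fun γ => if h : ∃ a ∈ c, γ < a.1 then h.choose.2 γ else 0
    have hg : ∀ a ∈ c, Ag a.1 g a.2 := by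
      intro a ha γ hγ
      have hex : ∃ a ∈ c, γ < a.1 := ⟨a, ha, hγ⟩
      have h1 : g γ = hex.choose.2 γ := dif_pos hex
      rw [h1]
      exact hagree _ hex.choose_spec.1 a ha γ hex.choose_spec.2 hγ
    refine ⟨(A, g), fun a ha => ?_⟩
    obtain ⟨b, hb, hab, hP⟩ := hsucc a ha
    right
    refine ⟨⟨hlev a ha, hg a ha⟩, lt_of_le_of_lt (PC_mono χ ?_) hP⟩
    exact ⟨hlev b hb, hg b hb⟩) htr
  refine ⟨n, fun m hm => ?_⟩
  by_contra hne
  have h1 : r n m := Or.inr ⟨hm, lt_of_le_of_ne (PC_mono χ hm) hne⟩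
  rcases hn m h1 with h | h
  · rw [h] at hne
    exact hne rfl
  · exact absurd (h.2.trans (lt_of_le_of_ne (PC_mono χ hm) hne)) (lt_irrefl _)

/-- rank of a pair -/
noncomputable def rk (p : XX Θ × XX Θ) : Θ := min (ell p.1) (ell p.2)

/-- priority order on pairs -/
def pr (p q : XX Θ × XX Θ) : Prop := rk p < rk q ∨ (rk p = rk q ∧ WellOrderingRel p q)

lemma pr_wf : WellFounded (pr (Θ := Θ)) := by
  have h : WellFounded (Prod.Lex ((· < ·) : Θ → Θ → Prop) (WellOrderingRel (α := XX Θ × XX Θ))) :=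
    WellFounded.prod_lex wellFounded_lt WellOrderingRel.isWellOrder.wf
  refine Subrelation.wf ?_ (InvImage.wf (fun p : XX Θ × XX Θ => (rk p, p)) h)
  intro p q hpq
  rcases hpq with hpq | ⟨h1, h2⟩
  · exact Prod.Lex.left _ _ hpq
  · show Prod.Lex _ _ (rk p, p) (rk q, q)
    rw [h1]
    exact Prod.Lex.right _ h2

lemma pr_tri (p q : XX Θ × XX Θ) (h : ¬ pr p q) (h' : ¬ pr q p) : p = q := by
  simp only [pr, not_or, not_and, not_lt] at h h'
  have h1 : rk p = rk q := le_antisymm h'.1 h.1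
  rcases trichotomous_of WellOrderingRel p q with h2 | h2 | h2
  · exact absurd h2 (h.2 h1)
  · exact h2
  · exact absurd h2 (h'.2 h1.symm)

/-- candidates -/
def Cd (α : Θ) (s t : Θ → ℤ) : Set (XX Θ × XX Θ) :=
  {p | Ag α p.1.1 s ∧ Ag α p.2.1 t ∧ χ p.1 = χ p.2}

lemma Cd_congr {α : Θ} {s t s' t' : Θ → ℤ} (h : Ag α s s') (h' : Ag α t t') :
    Cd χ α s t = Cd χ α s' t' := by
  ext p
  constructor
  · rintro ⟨h1, h2, h3⟩
    exact ⟨h1.trans h, h2.trans h', h3⟩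
  · rintro ⟨h1, h2, h3⟩
    exact ⟨h1.trans h.symm, h2.trans h'.symm, h3⟩

lemma Cd_mono {α β : Θ} {s t s' t' : Θ → ℤ} (hαβ : α ≤ β) (h : Ag α s s') (h' : Ag α t t') :
    Cd χ β s' t' ⊆ Cd χ α s t := by
  rintro p ⟨h1, h2, h3⟩
  exact ⟨(h1.mono hαβ).trans h.symm, (h2.mono hαβ).trans h'.symm, h3⟩

open Classical in
/-- the least pair of a set, as an option -/
noncomputable def mS (S : Set (XX Θ × XX Θ)) : Option (XX Θ × XX Θ) :=
  if h : S.Nonempty then some (pr_wf.min _ h) else none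

/-- the preferred pair, as an option -/
noncomputable def mm (α : Θ) (s t : Θ → ℤ) : Option (XX Θ × XX Θ) := mS (Cd χ α s t)

lemma mm_mem {α : Θ} {s t : Θ → ℤ} {p : XX Θ × XX Θ} (h : mm χ α s t = some p) :
    p ∈ Cd χ α s t ∧ ∀ q ∈ Cd χ α s t, ¬ pr q p := by
  unfold mm mS at h
  split_ifs at h with hne
  rw [Option.some.injEq] at h
  subst h
  exact ⟨pr_wf.min_mem _ _, fun q hq => pr_wf.not_lt_min _ hq⟩

lemma mm_eq {α : Θ} {s t : Θ → ℤ} {p : XX Θ × XX Θ} (h : p ∈ Cd χ α s t)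
    (h' : ∀ q ∈ Cd χ α s t, ¬ pr q p) : mm χ α s t = some p := by
  have hne : (Cd χ α s t).Nonempty := ⟨p, h⟩
  unfold mm mS
  rw [dif_pos hne, Option.some.injEq]
  exact pr_tri _ _ (h' _ (pr_wf.min_mem _ _)) (pr_wf.not_lt_min _ h)

lemma mm_congr {α : Θ} {s t s' t' : Θ → ℤ} (h : Ag α s s') (h' : Ag α t t') :
    mm χ α s t = mm χ α s' t' := by
  unfold mm
  rw [Cd_congr χ h h']

lemma mm_persist {α β : Θ} {s t s' t' : Θ → ℤ} (hαβ : α ≤ β) (h : Ag α s s') (h' : Ag α t t')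
    {p : XX Θ × XX Θ} (hp : mm χ α s t = some p) (hp' : p ∈ Cd χ β s' t') :
    mm χ β s' t' = some p :=
  mm_eq χ hp' fun q hq => (mm_mem χ hp).2 q (Cd_mono χ hαβ h h' hq)

/-- the shift -/
noncomputable def aa (α : Θ) (s t : Θ → ℤ) : ℤ :=
  match mm χ α s t with
  | some p => p.2.1 α - p.1.1 α
  | none => 0

lemma aa_congr {α : Θ} {s t s' t' : Θ → ℤ} (h : Ag α s s') (h' : Ag α t t') :
    aa χ α s t = aa χ α s' t' := by
  unfold aa
  rw [mm_congr χ h h']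

/-- related sequences -/
structure Rl (n : Θ × (Θ → ℤ)) (x y : Θ → ℤ) : Prop where
  ag : Ag n.1 x n.2
  ag' : Ag n.1 y n.2
  step : y n.1 = x n.1 + 1
  up : ∀ α, n.1 < α → y α = x α + aa χ α x y

lemma Rl_right (n : Θ × (Θ → ℤ)) (x : Θ → ℤ) (hx : Ag n.1 x n.2) : ∃ y, Rl χ n x y := by
  classical
  obtain ⟨y, hy⟩ := rec_exists (fun α s => if α < n.1 then n.2 α else if α = n.1 then x α + 1 else
    x α + aa χ α x s) (by
      intro α s t h
      simp only [aa_congr χ (Ag.refl α x) h])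
  refine ⟨y, hx, ?_, ?_, ?_⟩
  · intro β hβ
    rw [hy β, if_pos hβ]
  · rw [hy n.1, if_neg (lt_irrefl _), if_pos rfl]
  · intro α hα
    conv_lhs => rw [hy α]
    rw [if_neg hα.not_gt, if_neg hα.ne']

lemma Rl_left (n : Θ × (Θ → ℤ)) (y : Θ → ℤ) (hy : Ag n.1 y n.2) : ∃ x, Rl χ n x y := by
  classical
  obtain ⟨x, hx⟩ := rec_exists (fun α s => if α < n.1 then n.2 α else if α = n.1 then y α - 1 else
    y α - aa χ α s y) (by
      intro α s t h
      simp only [aa_congr χ h (Ag.refl α y)])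
  refine ⟨x, ?_, hy, ?_, ?_⟩
  · intro β hβ
    rw [hx β, if_pos hβ]
  · have h := hx n.1
    rw [if_neg (lt_irrefl _), if_pos rfl] at h
    linarith
  · intro α hα
    have h := hx α
    rw [if_neg hα.not_gt, if_neg hα.ne'] at h
    linarith

variable {χ} {n : Θ × (Θ → ℤ)}

/-- one step of comparison of two related pairs -/
lemma Rl_diff {x y x' y' : Θ → ℤ} (h : Rl χ n x y) (h' : Rl χ n x' y') (α : Θ) (h1 : Ag α x x')
    (h2 : Ag α y y') : y α - y' α = x α - x' α := by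
  rcases lt_trichotomy α n.1 with hα | hα | hα
  · rw [h.ag α hα, h'.ag α hα, h.ag' α hα, h'.ag' α hα]
  · rw [hα, h.step, h'.step]
    ring
  · rw [h.up α hα, h'.up α hα, aa_congr χ h1 h2]
    ring

lemma Rl_ag {x y x' y' : Θ → ℤ} (h : Rl χ n x y) (h' : Rl χ n x' y') (α : Θ) :
    Ag α x x' ↔ Ag α y y' := by
  induction α using WellFoundedLT.induction with
  | ind α ih =>
    constructor
    · intro hx β hβ
      have h1 := hx.mono hβ.le
      have h2 := (ih β hβ).1 h1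
      have h3 := Rl_diff h h' β h1 h2
      have h4 := hx β hβ
      linarith
    · intro hy β hβ
      have h2 := hy.mono hβ.le
      have h1 := (ih β hβ).2 h2
      have h3 := Rl_diff h h' β h1 h2
      have h4 := hy β hβ
      linarith

lemma Rl_lt {x y x' y' : Θ → ℤ} (h : Rl χ n x y) (h' : Rl χ n x' y')
    (hlt : ∃ i, (∀ j, j < i → x j = x' j) ∧ x i < x' i) :
    ∃ i, (∀ j, j < i → y j = y' j) ∧ y i < y' i := by
  obtain ⟨i, hi, hlt⟩ := hlt
  have h2 : Ag i y y' := (Rl_ag h h' i).1 hi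
  have := Rl_diff h h' i hi h2
  exact ⟨i, h2, by linarith⟩

lemma Rl_fun {x y y' : Θ → ℤ} (h : Rl χ n x y) (h' : Rl χ n x y') : y = y' := by
  funext α
  have h2 : Ag α y y' := (Rl_ag h h' α).1 (Ag.refl _ _)
  have := Rl_diff h h' α (Ag.refl _ _) h2
  linarith

lemma Rl_inj {x x' y : Θ → ℤ} (h : Rl χ n x y) (h' : Rl χ n x' y) : x = x' := by
  funext α
  have h2 : Ag α x x' := (Rl_ag h h' α).2 (Ag.refl _ _)
  have := Rl_diff h h' α h2 (Ag.refl _ _)
  linarith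

/-- preferred pairs are related -/
lemma Rl_pref {x y : Θ → ℤ} (h : Rl χ n x y) {α : Θ} (hα : n.1 < α) {p : XX Θ × XX Θ}
    (hp : mm χ α x y = some p) : Rl χ n p.1.1 p.2.1 := by
  obtain ⟨⟨h1, h2, h3⟩, -⟩ := mm_mem χ hp
  obtain ⟨v, hv⟩ := Rl_right χ n p.1.1 ((h1.mono hα.le).trans h.ag)
  have key : ∀ β, v β = p.2.1 β := by
    intro β
    induction β using WellFoundedLT.induction with
    | ind β ih =>
      by_cases hβ : β < α
      · have h4 : Ag α y v := (Rl_ag h hv α).1 h1.symm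
        rw [← h4 β hβ, h2 β hβ]
      · push Not at hβ
        have h5 : Ag β v p.2.1 := ih
        have h6 : p ∈ Cd χ β p.1.1 v := ⟨Ag.refl _ _, h5.symm, h3⟩
        have h7 : Ag α y v := (Rl_ag h hv α).1 h1.symm
        have h8 := mm_persist χ hβ h1.symm h7 hp h6
        rw [hv.up β (hα.trans_le hβ)]
        unfold aa
        rw [h8]
        ring
  have : v = p.2.1 := funext key
  rw [← this]
  exact hv

lemma not_pr {p q : XX Θ × XX Θ} (h : ¬ pr q p) : rk p ≤ rk q := by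
  simp only [pr, not_or, not_lt] at h
  exact h.1

lemma eq_of_ell {x y : XX Θ} {α : Θ} (h : Ag α x.1 y.1) (hx : ell x ≤ α) (hy : ell y ≤ α) :
    x.1 = y.1 := by
  funext γ
  by_cases hγ : γ < α
  · exact h γ hγ
  · push Not at hγ
    rw [ell_spec x γ (hx.trans hγ), ell_spec y γ (hy.trans hγ)]

lemma first_diff {x y : Θ → ℤ} (h : x ≠ y) : ∃ γ, Ag γ x y ∧ x γ ≠ y γ := by
  have hne : {γ | x γ ≠ y γ}.Nonempty := by
    by_contra hcon
    rw [Set.not_nonempty_iff_eq_empty] at hcon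
    apply h
    funext γ
    by_contra hγ
    have : γ ∈ {γ | x γ ≠ y γ} := hγ
    rw [hcon] at this
    exact this
  refine ⟨wellFounded_lt.min _ hne, ?_, wellFounded_lt.min_mem _ hne⟩
  intro β hβ
  by_contra hcon
  exact wellFounded_lt.not_lt_min {γ | x γ ≠ y γ} hcon hβ

lemma step1 (hom : ∀ m, Ex n m → PC χ m = PC χ n) {x y : Θ → ℤ} (h : Rl χ n x y) (X : XX Θ)
    (hX : X.1 = x) {α : Θ} (hα : n.1 ≤ α) (hell : ell X ≤ α) :
    ∃ p, mm χ α x y = some p ∧ (p.1.1 = x ∨ ell p.2 ≤ ell X) := by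
  have hc : χ X ∈ PC χ n := ⟨X, by rw [hX]; exact h.ag, rfl⟩
  rw [← hom (α, y) ⟨hα, h.ag'⟩] at hc
  obtain ⟨w, hw, hwc⟩ := hc
  have hmem : (X, w) ∈ Cd χ α x y := ⟨by rw [hX]; exact Ag.refl _ _, hw, hwc.symm⟩
  have hne : (Cd χ α x y).Nonempty := ⟨_, hmem⟩
  obtain ⟨p, hp⟩ : ∃ p, mm χ α x y = some p := by
    unfold mm mS
    rw [dif_pos hne]
    exact ⟨_, rfl⟩
  refine ⟨p, hp, ?_⟩
  obtain ⟨hp1, hp2⟩ := mm_mem χ hp
  have h1 := not_pr (hp2 _ hmem)
  have h2 : rk (X, w) ≤ ell X := min_le_left _ _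
  have h3 := h1.trans h2
  rcases min_le_iff.1 h3 with h4 | h4
  · left
    have h5 : Ag α p.1.1 X.1 := by rw [hX]; exact hp1.1
    rw [eq_of_ell h5 (h4.trans hell) hell, hX]
  · exact Or.inr h4

lemma step2 (hom : ∀ m, Ex n m → PC χ m = PC χ n) {x y : Θ → ℤ} (h : Rl χ n x y) (X : XX Θ)
    (hX : X.1 = y) {α : Θ} (hα : n.1 ≤ α) (hell : ell X ≤ α) :
    ∃ p, mm χ α x y = some p ∧ (p.2.1 = y ∨ ell p.1 ≤ ell X) := by
  have hc : χ X ∈ PC χ n := ⟨X, by rw [hX]; exact h.ag', rfl⟩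
  rw [← hom (α, x) ⟨hα, h.ag⟩] at hc
  obtain ⟨w, hw, hwc⟩ := hc
  have hmem : (w, X) ∈ Cd χ α x y := ⟨hw, by rw [hX]; exact Ag.refl _ _, hwc⟩
  have hne : (Cd χ α x y).Nonempty := ⟨_, hmem⟩
  obtain ⟨p, hp⟩ : ∃ p, mm χ α x y = some p := by
    unfold mm mS
    rw [dif_pos hne]
    exact ⟨_, rfl⟩
  refine ⟨p, hp, ?_⟩
  obtain ⟨hp1, hp2⟩ := mm_mem χ hp
  have h1 := not_pr (hp2 _ hmem)
  have h2 : rk (w, X) ≤ ell X := min_le_right _ _
  have h3 := h1.trans h2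
  rcases min_le_iff.1 h3 with h4 | h4
  · exact Or.inr h4
  · left
    have h5 : Ag α p.2.1 X.1 := by rw [hX]; exact hp1.2.1
    rw [eq_of_ell h5 (h4.trans hell) hell, hX]

lemma total1 [NoMaxOrder Θ] (hom : ∀ m, Ex n m → PC χ m = PC χ n) {x y : Θ → ℤ}
    (h : Rl χ n x y) (X : XX Θ) (hX : X.1 = x) :
    ∃ α, n.1 < α ∧ ∃ p, mm χ α x y = some p ∧ p.1.1 = x := by
  obtain ⟨b0, hb0⟩ := exists_gt n.1
  set α := max (ell X) b0 with hα
  have h1 : n.1 < α := hb0.trans_le (le_max_right _ _)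
  have h2 : ell X ≤ α := le_max_left _ _
  obtain ⟨p, hp, hp'⟩ := step1 hom h X hX h1.le h2
  rcases hp' with hp' | hp'
  · exact ⟨α, h1, p, hp, hp'⟩
  by_cases hpx : p.1.1 = x
  · exact ⟨α, h1, p, hp, hpx⟩
  obtain ⟨γ, hγ, hγ'⟩ := first_diff hpx
  have hαγ : α ≤ γ := by
    by_contra hcon
    push Not at hcon
    exact hγ' ((mm_mem χ hp).1.1 γ hcon)
  have hR := Rl_pref h h1 hp
  have hy : y γ ≠ 0 := by
    have h3 := Rl_diff hR h γ hγ ((Rl_ag hR h γ).1 hγ)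
    rw [ell_spec p.2 γ (hp'.trans (h2.trans hαγ))] at h3
    intro h0
    rw [h0] at h3
    apply hγ'
    linarith
  obtain ⟨β, hβ⟩ := exists_gt γ
  obtain ⟨q, hq, hq'⟩ := step1 hom h X hX (h1.le.trans (hαγ.trans hβ.le))
    (h2.trans (hαγ.trans hβ.le))
  rcases hq' with hq' | hq'
  · exact ⟨β, h1.trans_le (hαγ.trans hβ.le), q, hq, hq'⟩
  · exfalso
    apply hy
    rw [← (mm_mem χ hq).1.2.1 γ hβ]
    exact ell_spec q.2 γ (hq'.trans (h2.trans hαγ))

lemma total2 [NoMaxOrder Θ] (hom : ∀ m, Ex n m → PC χ m = PC χ n) {x y : Θ → ℤ}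
    (h : Rl χ n x y) (X : XX Θ) (hX : X.1 = y) :
    ∃ α, n.1 < α ∧ ∃ p, mm χ α x y = some p ∧ p.2.1 = y := by
  obtain ⟨b0, hb0⟩ := exists_gt n.1
  set α := max (ell X) b0 with hα
  have h1 : n.1 < α := hb0.trans_le (le_max_right _ _)
  have h2 : ell X ≤ α := le_max_left _ _
  obtain ⟨p, hp, hp'⟩ := step2 hom h X hX h1.le h2
  rcases hp' with hp' | hp'
  · exact ⟨α, h1, p, hp, hp'⟩
  by_cases hpx : p.2.1 = y
  · exact ⟨α, h1, p, hp, hpx⟩
  obtain ⟨γ, hγ, hγ'⟩ := first_diff hpx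
  have hαγ : α ≤ γ := by
    by_contra hcon
    push Not at hcon
    exact hγ' ((mm_mem χ hp).1.2.1 γ hcon)
  have hR := Rl_pref h h1 hp
  have hy : x γ ≠ 0 := by
    have h3 := Rl_diff hR h γ ((Rl_ag hR h γ).2 hγ) hγ
    rw [ell_spec p.1 γ (hp'.trans (h2.trans hαγ))] at h3
    intro h0
    rw [h0] at h3
    apply hγ'
    linarith
  obtain ⟨β, hβ⟩ := exists_gt γ
  obtain ⟨q, hq, hq'⟩ := step2 hom h X hX (h1.le.trans (hαγ.trans hβ.le))
    (h2.trans (hαγ.trans hβ.le))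
  rcases hq' with hq' | hq'
  · exact ⟨β, h1.trans_le (hαγ.trans hβ.le), q, hq, hq'⟩
  · exfalso
    apply hy
    rw [← (mm_mem χ hq).1.1 γ hβ]
    exact ell_spec q.1 γ (hq'.trans (h2.trans hαγ))

end colour

theorem exists_auto [Nonempty Θ] [NoMaxOrder Θ] {C : Type}
    (hbd : ∀ f : C → Θ, ∃ b, ∀ i, f i ≤ b) (χ : XX Θ → C) :
    ∃ F : XX Θ ≃o XX Θ, (∃ x, F x ≠ x) ∧ ∀ x, χ (F x) = χ x := by
  classical
  obtain ⟨n, hom⟩ := exists_homog χ hbd
  have hex : ∀ x : XX Θ, ∃ y : XX Θ, (Ag n.1 x.1 n.2 → Rl χ n x.1 y.1) ∧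
      (¬ Ag n.1 x.1 n.2 → y = x) ∧ χ y = χ x := by
    intro x
    by_cases hx : Ag n.1 x.1 n.2
    · obtain ⟨y, hy⟩ := Rl_right χ n x.1 hx
      obtain ⟨α, hα, p, hp, hpx⟩ := total1 hom hy x rfl
      have h1 := Rl_pref hy hα hp
      rw [hpx] at h1
      have h2 := Rl_fun hy h1
      refine ⟨p.2, fun _ => h1, fun h => absurd hx h, ?_⟩
      rw [← (mm_mem χ hp).1.2.2]
      congr 1
      exact Subtype.ext hpx
    · exact ⟨x, fun h => absurd h hx, fun _ => rfl, rfl⟩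
  choose f hf1 hf2 hf3 using hex
  have hlt : ∀ x y : XX Θ, x < y ↔ ∃ i, (∀ j, j < i → x.1 j = y.1 j) ∧ x.1 i < y.1 i :=
    fun x y => Iff.rfl
  have hmono : StrictMono f := by
    intro x y hxy
    have hxy' := (hlt x y).1 hxy
    rw [hlt]
    by_cases hx : Ag n.1 x.1 n.2 <;> by_cases hy : Ag n.1 y.1 n.2
    · exact Rl_lt (hf1 x hx) (hf1 y hy) hxy'
    · obtain ⟨i, hi, hlti⟩ := hxy'
      have hin : i < n.1 := by
        by_contra hcon
        push Not at hcon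
        apply hy
        intro β hβ
        rw [← hi β (hβ.trans_le hcon)]
        exact hx β hβ
      have hR := hf1 x hx
      rw [hf2 y hy]
      refine ⟨i, fun j hj => ?_, ?_⟩
      · rw [hR.ag' j (hj.trans hin), ← hx j (hj.trans hin)]
        exact hi j hj
      · rw [hR.ag' i hin, ← hx i hin]
        exact hlti
    · obtain ⟨i, hi, hlti⟩ := hxy'
      have hin : i < n.1 := by
        by_contra hcon
        push Not at hcon
        apply hx
        intro β hβ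
        rw [hi β (hβ.trans_le hcon)]
        exact hy β hβ
      have hR := hf1 y hy
      rw [hf2 x hx]
      refine ⟨i, fun j hj => ?_, ?_⟩
      · rw [hR.ag' j (hj.trans hin), ← hy j (hj.trans hin)]
        exact hi j hj
      · rw [hR.ag' i hin, ← hy i hin]
        exact hlti
    · rw [hf2 x hx, hf2 y hy]
      exact hxy'
  have hsurj : Function.Surjective f := by
    intro y
    by_cases hy : Ag n.1 y.1 n.2
    · obtain ⟨x, hx⟩ := Rl_left χ n y.1 hy
      obtain ⟨α, hα, p, hp, hpx⟩ := total2 hom hx y rfl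
      have h1 := Rl_pref hx hα hp
      rw [hpx] at h1
      have h2 : p.1.1 = x := Rl_inj h1 hx
      refine ⟨p.1, ?_⟩
      have h3 := hf1 p.1 (by rw [h2]; exact hx.ag)
      exact Subtype.ext (Rl_fun h3 h1)
    · exact ⟨y, hf2 y hy⟩
  let F := StrictMono.orderIsoOfSurjective f hmono hsurj
  have hF : ∀ x, F x = f x := fun x => rfl
  refine ⟨F, ?_, fun x => by rw [hF, hf3]⟩
  let x0 : XX Θ := ⟨fun β => if β < n.1 then n.2 β else 0, n.1, fun γ hγ => if_neg hγ.not_gt⟩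
  refine ⟨x0, ?_⟩
  rw [hF]
  have h1 : Ag n.1 x0.1 n.2 := fun β hβ => if_pos hβ
  have h2 := (hf1 x0 h1).step
  intro h
  rw [h] at h2
  omega

end Pool.Agent.H125.UM
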